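import Pool.Agent.helper81.PJ.Spec
import Pool.Agent.helper29.SPI.NUM

/-!
# Project pj (MP_f6e9a2_nt), row NUG: collisions, at most `D` points per cell
-/

set_option autoImplicit false

open Finset

namespace Pool.Agent.PJ

open Pool.Agent.PY2
open Pool.Agent.SPI (NUM_W NUM_exp NUM_maj NUM_W_nonneg NUM_wf_nonneg)

theorem NUG : NUG_stmt := by
  intro p _ S h M T D hM hMh hhp hT hcell
  have hp0 : 0 < p := (Fact.out : p.Prime).pos
  have hD : 0 ≤ D := le_trans (Nat.cast_nonneg _) (hcell 0)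
  have hh : 1 ≤ h := by omega
  set R : ℕ := p / (12 * h) with hR
  have hR2 : 2 ≤ R := by
    rw [hR, Nat.le_div_iff_mul_le (by omega)]
    omega
  have hRp : 12 * h * R ≤ p := by rw [hR]; exact Nat.mul_div_le p (12 * h)
  have hpR : p ≤ 24 * h * R := by
    have h8 : p < 12 * h * (R + 1) := by
      rw [hR]; exact Nat.lt_mul_div_succ p (by omega)
    nlinarith
  have hLR : 2 * (2 * M * R) < p := by nlinarith
  have h2R : 2 * R ≤ p := by nlinarith
  have hRlep : R ≤ p := by omega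
  have hRpos : (0 : ℝ) < R := by exact_mod_cast (by omega : 0 < R)
  have hppos : (0 : ℝ) < p := by exact_mod_cast hp0
  have hhpos : (0 : ℝ) < h := by exact_mod_cast (by omega : 0 < h)
  have hpRr : (p : ℝ) ≤ 24 * h * R := by exact_mod_cast hpR
  obtain ⟨a, ha, ha0, hapar⟩ := NUM_exp S h R (by omega) h2R
  obtain ⟨b, hb⟩ : ∃ b : ℕ → ℤ → ℂ, b = fun m f => if M < m then a f else 0 := ⟨_, rfl⟩
  have hIoc : Ioc M (2 * M) = (Icc 1 (2 * M)).filter fun m => M < m := by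
    ext m
    rw [mem_filter, mem_Ioc, mem_Icc]
    omega
  have hcardM : (Ioc M (2 * M)).card = M := by
    rw [Nat.card_Ioc]
    omega
  -- pointwise bound
  have hpt : ∀ r : ZMod p, (Pool.Agent.SPI.nu S h M r : ℝ) ^ 2 ≤
      ‖∑ m ∈ Icc 1 (2 * M), ∑ f ∈ Ioo (-(R : ℤ)) R,
        b m f * ps ((m : ZMod p) * (f : ZMod p) * r)‖ ^ 2 := by
    intro r
    have e1 : ∑ m ∈ Icc 1 (2 * M), ∑ f ∈ Ioo (-(R : ℤ)) R,
        b m f * ps ((m : ZMod p) * (f : ZMod p) * r) =
        ((∑ m ∈ Ioc M (2 * M), NUM_W S h R ((m : ZMod p) * r) : ℝ) : ℂ) := by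
      rw [hIoc, sum_filter]
      push_cast
      refine sum_congr rfl fun m _ => ?_
      rw [hb]
      by_cases hm : M < m
      · simp only [if_pos hm]
        rw [ha ((m : ZMod p) * r)]
        refine sum_congr rfl fun f _ => ?_
        congr 2
        ring
      · simp only [if_neg hm, zero_mul, sum_const_zero, Complex.ofReal_zero]
    rw [e1, Complex.norm_real]
    have h9 : (Pool.Agent.SPI.nu S h M r : ℝ) ≤ ∑ m ∈ Ioc M (2 * M), NUM_W S h R ((m : ZMod p) * r) := by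
      unfold Pool.Agent.SPI.nu
      rw [Nat.cast_sum]
      exact sum_le_sum fun m _ => NUM_maj S h R hh (by omega) hRp _
    have h10 : 0 ≤ ∑ m ∈ Ioc M (2 * M), NUM_W S h R ((m : ZMod p) * r) :=
      sum_nonneg fun m _ => NUM_W_nonneg _ _ _ _
    rw [Real.norm_of_nonneg h10]
    exact pow_le_pow_left₀ (Nat.cast_nonneg _) h9 2
  have hd := Pool.Agent.PY2.DIL p (2 * M) R T b (by omega) hLR (fun n hn1 hn2 => hT n hn1 (by
    have : 2 * M * R ≤ p := by omega
    omega))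
  -- first term
  have hF1 : (p : ℝ) * ‖∑ m ∈ Icc 1 (2 * M), b m 0‖ ^ 2 ≤
      10 ^ 4 * ((M : ℝ) * S.card * h) ^ 2 / p := by
    have e2 : ∑ m ∈ Icc 1 (2 * M), b m 0 = ((M * (4 / R * S.card) : ℝ) : ℂ) := by
      rw [hb]
      show ∑ m ∈ Icc 1 (2 * M), (if M < m then a 0 else 0) = _
      rw [← sum_filter, ← hIoc, sum_const, hcardM, nsmul_eq_mul, ha0]
      push_cast
      ring
    rw [e2, Complex.norm_real, Real.norm_of_nonneg (by positivity)]
    have h12 : 4 / (R : ℝ) ≤ 96 * h / p := by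
      rw [div_le_div_iff₀ hRpos hppos]
      nlinarith
    have h11 : (M : ℝ) * (4 / R * S.card) ≤ 96 * h / p * (M * S.card) := by
      have h13 : (0 : ℝ) ≤ (M : ℝ) * S.card := by positivity
      calc (M : ℝ) * (4 / R * S.card) = 4 / R * (M * S.card) := by ring
        _ ≤ _ := mul_le_mul_of_nonneg_right h12 h13
    have h13 : ((M : ℝ) * (4 / R * S.card)) ^ 2 ≤ (96 * h / p * (M * S.card)) ^ 2 :=
      pow_le_pow_left₀ (by positivity) h11 2
    calc (p : ℝ) * ((M : ℝ) * (4 / R * S.card)) ^ 2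
        ≤ p * (96 * h / p * (M * S.card)) ^ 2 := mul_le_mul_of_nonneg_left h13 hppos.le
      _ = 9216 * ((M : ℝ) * S.card * h) ^ 2 / p := by field_simp; ring
      _ ≤ 10 ^ 4 * ((M : ℝ) * S.card * h) ^ 2 / p := by
          gcongr
          norm_num
  -- second term
  have hWle : ∀ y, NUM_W S h R y ≤ 1000 * D := by
    intro y
    have h14 := Pool.Agent.PY2.WSUM Pool.Agent.PY2.GEO Pool.Agent.PY2.SPC p h h R y hh le_rfl
      (by omega) hpR
    have h15 : NUM_W S h R y ≤ D * ∑ j ∈ range (p / h + 1), wf R (y - ((j * h : ℕ) : ZMod p)) := by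
      have hmaps : ∀ s ∈ S, s.val / h ∈ range (p / h + 1) := by
        intro s _
        rw [mem_range]
        have h17 : s.val / h ≤ p / h := Nat.div_le_div_right (ZMod.val_lt s).le
        omega
      have h16 : NUM_W S h R y = ∑ j ∈ range (p / h + 1), ∑ s ∈ S.filter (fun s => s.val / h = j),
          wf R (y - ((s.val / h * h : ℕ) : ZMod p)) :=
        (sum_fiberwise_of_maps_to hmaps _).symm
      rw [h16, mul_sum]
      refine sum_le_sum fun j _ => ?_
      have h20 : ∑ s ∈ S.filter (fun s => s.val / h = j),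
          wf R (y - ((s.val / h * h : ℕ) : ZMod p)) =
          ((S.filter fun s => s.val / h = j).card : ℝ) * wf R (y - ((j * h : ℕ) : ZMod p)) := by
        rw [← nsmul_eq_mul, ← sum_const]
        refine sum_congr rfl fun s hs => ?_
        rw [(mem_filter.1 hs).2]
      rw [h20]
      exact mul_le_mul_of_nonneg_right (hcell j) (NUM_wf_nonneg _ _)
    refine h15.trans ?_
    have h18 : (h : ℝ) * ∑ j ∈ range (p / h + 1), wf R (y - ((j * h : ℕ) : ZMod p)) ≤
        h * 1000 := by linarith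
    have h21 : ∑ j ∈ range (p / h + 1), wf R (y - ((j * h : ℕ) : ZMod p)) ≤ 1000 :=
      le_of_mul_le_mul_left h18 hhpos
    calc D * ∑ j ∈ range (p / h + 1), wf R (y - ((j * h : ℕ) : ZMod p)) ≤ D * 1000 :=
          mul_le_mul_of_nonneg_left h21 hD
      _ = 1000 * D := mul_comm _ _
  have hWsum : ∑ y : ZMod p, NUM_W S h R y ≤ 96 * h * S.card := by
    unfold NUM_W
    rw [sum_comm]
    have h18 : 4 * (p : ℝ) / R ≤ 96 * h := by
      rw [div_le_iff₀ hRpos]
      nlinarith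
    calc ∑ s ∈ S, ∑ y : ZMod p, wf R (y - ((s.val / h * h : ℕ) : ZMod p)) ≤
        ∑ s ∈ S, (96 * h : ℝ) := by
          refine sum_le_sum fun s _ => ?_
          have e3 : ∑ y : ZMod p, wf R (y - ((s.val / h * h : ℕ) : ZMod p)) =
              ∑ y : ZMod p, wf R y :=
            Equiv.sum_comp (Equiv.subRight (((s.val / h * h : ℕ) : ZMod p))) (fun y => wf R y)
          rw [e3, Pool.Agent.PY2.WTOT p R (by omega) hRlep]
          exact h18
      _ = 96 * h * S.card := by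
          rw [sum_const, nsmul_eq_mul]
          ring
  have hF2 : (p : ℝ) * (T * ∑ m ∈ Icc 1 (2 * M), ∑ f ∈ Ioo (-(R : ℤ)) R, ‖b m f‖ ^ 2) ≤
      10 ^ 5 * T * D * (M * S.card * h) := by
    have e4 : ∑ m ∈ Icc 1 (2 * M), ∑ f ∈ Ioo (-(R : ℤ)) R, ‖b m f‖ ^ 2 =
        M * ∑ f ∈ Ioo (-(R : ℤ)) R, ‖a f‖ ^ 2 := by
      have e5 : ∀ m ∈ Icc 1 (2 * M), ∑ f ∈ Ioo (-(R : ℤ)) R, ‖b m f‖ ^ 2 =
          if M < m then ∑ f ∈ Ioo (-(R : ℤ)) R, ‖a f‖ ^ 2 else 0 := by
        intro m _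
        rw [hb]
        by_cases hm : M < m
        · simp only [if_pos hm]
        · simp [if_neg hm]
      rw [sum_congr rfl e5, ← sum_filter, ← hIoc, sum_const, hcardM, nsmul_eq_mul]
    have h19 : ∑ y : ZMod p, NUM_W S h R y ^ 2 ≤ 1000 * D * (96 * h * S.card) := by
      have hD1 : 0 ≤ 1000 * D := by positivity
      calc ∑ y : ZMod p, NUM_W S h R y ^ 2 ≤ ∑ y : ZMod p, 1000 * D * NUM_W S h R y := by
            refine sum_le_sum fun y _ => ?_
            rw [sq]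
            exact mul_le_mul_of_nonneg_right (hWle y) (NUM_W_nonneg _ _ _ _)
        _ = 1000 * D * ∑ y : ZMod p, NUM_W S h R y := by rw [mul_sum]
        _ ≤ _ := mul_le_mul_of_nonneg_left hWsum hD1
    rw [e4]
    calc (p : ℝ) * (T * (M * ∑ f ∈ Ioo (-(R : ℤ)) R, ‖a f‖ ^ 2)) =
        T * M * (p * ∑ f ∈ Ioo (-(R : ℤ)) R, ‖a f‖ ^ 2) := by ring
      _ = T * M * ∑ y : ZMod p, NUM_W S h R y ^ 2 := by rw [hapar]
      _ ≤ T * M * (1000 * D * (96 * h * S.card)) := mul_le_mul_of_nonneg_left h19 (by positivity)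
      _ = 96000 * (T * D * (M * S.card * h)) := by ring
      _ ≤ 10 ^ 5 * (T * D * (M * S.card * h)) := by
          gcongr
          norm_num
      _ = 10 ^ 5 * T * D * (M * S.card * h) := by ring
  calc ∑ r : ZMod p, (Pool.Agent.SPI.nu S h M r : ℝ) ^ 2
      ≤ ∑ r : ZMod p, ‖∑ m ∈ Icc 1 (2 * M), ∑ f ∈ Ioo (-(R : ℤ)) R,
        b m f * ps ((m : ZMod p) * (f : ZMod p) * r)‖ ^ 2 :=
        sum_le_sum fun r _ => hpt r
    _ ≤ p * (‖∑ m ∈ Icc 1 (2 * M), b m 0‖ ^ 2 +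
        T * ∑ m ∈ Icc 1 (2 * M), ∑ f ∈ Ioo (-(R : ℤ)) R, ‖b m f‖ ^ 2) := hd
    _ = p * ‖∑ m ∈ Icc 1 (2 * M), b m 0‖ ^ 2 +
        p * (T * ∑ m ∈ Icc 1 (2 * M), ∑ f ∈ Ioo (-(R : ℤ)) R, ‖b m f‖ ^ 2) := by
        ring
    _ ≤ _ := add_le_add hF1 hF2

end Pool.Agent.PJ
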